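import Pool.Agent.Helper78.ZM.Stmts

/-!
ZM-1: algebra of mixed discriminants.
-/

open Matrix
open scoped ComplexOrder

namespace Pool.Agent.Helper85.ZM

open Pool.Agent.Helper78.ZM

theorem mixD_const (n : ℕ) (A : Matrix (Fin n) (Fin n) ℂ) :
    mixD (fun _ : Fin n => A) = (n.factorial : ℂ) * A.det := by
  unfold mixD
  have h : ∀ σ : Equiv.Perm (Fin n), ∑ τ : Equiv.Perm (Fin n),
      ((Equiv.Perm.sign σ : ℤ) : ℂ) * ((Equiv.Perm.sign τ : ℤ) : ℂ) * ∏ i, A (σ i) (τ i) =
      A.det := by
    intro σ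
    rw [← Matrix.det_transpose, Matrix.det_apply']
    rw [← Equiv.sum_comp (Equiv.mulRight σ)]
    apply Finset.sum_congr rfl
    intro τ _
    simp only [Equiv.coe_mulRight, Equiv.Perm.coe_mul, Function.comp_apply,
      Equiv.Perm.sign_mul, Matrix.transpose_apply]
    rw [Equiv.prod_comp σ (fun i => A i (τ i))]
    have hs : ((Equiv.Perm.sign σ : ℤ) : ℂ) * ((Equiv.Perm.sign σ : ℤ) : ℂ) = 1 := by
      rcases Int.units_eq_one_or (Equiv.Perm.sign σ) with h | h <;> simp [h]
    push_cast
    linear_combination (((Equiv.Perm.sign τ : ℤ) : ℂ) * ∏ i, A i (τ i)) * hs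
  rw [Finset.sum_congr rfl (fun σ _ => h σ)]
  simp [Fintype.card_perm]

theorem prod_update {n : ℕ} (H : Fin n → Matrix (Fin n) (Fin n) ℂ) (i : Fin n)
    (A : Matrix (Fin n) (Fin n) ℂ) (σ τ : Equiv.Perm (Fin n)) :
    ∏ k, (Function.update H i A) k (σ k) (τ k) =
      A (σ i) (τ i) * ∏ k ∈ Finset.univ.erase i, H k (σ k) (τ k) := by
  rw [← Finset.mul_prod_erase Finset.univ _ (Finset.mem_univ i)]
  congr 1
  · simp
  · apply Finset.prod_congr rfl
    intro k hk
    rw [Function.update_of_ne (Finset.ne_of_mem_erase hk)]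

theorem mixD_add (n : ℕ) (H : Fin n → Matrix (Fin n) (Fin n) ℂ) (i : Fin n)
    (A B : Matrix (Fin n) (Fin n) ℂ) (c : ℂ) : mixD (Function.update H i (A + c • B)) =
      mixD (Function.update H i A) + c * mixD (Function.update H i B) := by
  unfold mixD
  simp only [prod_update, Finset.mul_sum, ← Finset.sum_add_distrib]
  apply Finset.sum_congr rfl
  intro σ _
  apply Finset.sum_congr rfl
  intro τ _
  simp only [Matrix.add_apply, Matrix.smul_apply, smul_eq_mul]
  ring

theorem mixD_nonneg (n : ℕ) (H : Fin n → Matrix (Fin n) (Fin n) ℂ)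
    (hH : ∀ i, (H i).PosSemidef) : 0 ≤ mixD H := by
  have h1 : ∀ i, ∃ (m : ℕ) (v : Fin m → (Fin n → ℂ)), H i = ∑ l, vecMulVec (v l) (star (v l)) :=
    fun i => Matrix.posSemidef_iff_eq_sum_vecMulVec.mp (hH i)
  choose m v hv using h1
  have h2 : mixD H = ∑ p : (∀ i, Fin (m i)),
      (∑ σ : Equiv.Perm (Fin n), ((Equiv.Perm.sign σ : ℤ) : ℂ) * ∏ i, v i (p i) (σ i)) *
      star (∑ σ : Equiv.Perm (Fin n), ((Equiv.Perm.sign σ : ℤ) : ℂ) * ∏ i, v i (p i) (σ i)) := by
    unfold mixD
    have h3 : ∀ (σ τ : Equiv.Perm (Fin n)), ∏ i, H i (σ i) (τ i) =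
        ∑ p : (∀ i, Fin (m i)), (∏ i, v i (p i) (σ i)) * (∏ i, star (v i (p i) (τ i))) := by
      intro σ τ
      have h4 : ∀ i, H i (σ i) (τ i) = ∑ l : Fin (m i), v i l (σ i) * star (v i l (τ i)) := by
        intro i
        rw [hv i, Matrix.sum_apply]
        simp [vecMulVec_apply]
      rw [Finset.prod_congr rfl (fun i _ => h4 i), Finset.prod_univ_sum, Fintype.piFinset_univ]
      apply Finset.sum_congr rfl
      intro p _
      rw [Finset.prod_mul_distrib]
    simp only [h3, star_sum, star_mul', Finset.sum_mul, Finset.mul_sum]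
    rw [Finset.sum_comm]
    have h5 : ∀ (σ : Equiv.Perm (Fin n)), star ((Equiv.Perm.sign σ : ℤ) : ℂ) =
        ((Equiv.Perm.sign σ : ℤ) : ℂ) := by
      intro σ
      simp
    have h6 : ∀ (f : Fin n → ℂ), star (∏ i, f i) = ∏ i, star (f i) := by
      intro f
      simp
    simp only [h5, h6]
    rw [Finset.sum_congr rfl (fun σ _ => Finset.sum_comm), Finset.sum_comm]
    apply Finset.sum_congr rfl
    intro p _
    apply Finset.sum_congr rfl
    intro σ _
    apply Finset.sum_congr rfl
    intro τ _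
    ring
  rw [h2]
  apply Finset.sum_nonneg
  intro p _
  exact mul_star_self_nonneg _

theorem posSemidef_aux (n : ℕ) (A : Matrix (Fin n) (Fin n) ℂ) (c : ℝ) (s : ℝ) (hs : |s| ≤ 1)
    (hA : A.IsHermitian) (hc : ∀ j k, ‖A j k‖ ≤ c) :
    ((((n : ℝ) * c : ℝ) : ℂ) • (1 : Matrix (Fin n) (Fin n) ℂ) + (s : ℂ) • A).PosSemidef := by
  have hH : ((((n : ℝ) * c : ℝ) : ℂ) • (1 : Matrix (Fin n) (Fin n) ℂ) + (s : ℂ) • A).IsHermitian := by
    unfold Matrix.IsHermitian
    rw [Matrix.conjTranspose_add, Matrix.conjTranspose_smul, Matrix.conjTranspose_smul, hA.eq,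
      Matrix.conjTranspose_one]
    simp
  refine Matrix.PosSemidef.of_dotProduct_mulVec_nonneg hH ?_
  intro x
  have him : (star x ⬝ᵥ ((((((n : ℝ) * c : ℝ) : ℂ) • (1 : Matrix (Fin n) (Fin n) ℂ) +
      (s : ℂ) • A)) *ᵥ x)).im = 0 := by
    have := hH.im_star_dotProduct_mulVec_self x
    simpa using this
  rw [Complex.nonneg_iff]
  refine ⟨?_, him.symm⟩
  have h1 : star x ⬝ᵥ ((((((n : ℝ) * c : ℝ) : ℂ) • (1 : Matrix (Fin n) (Fin n) ℂ) +
      (s : ℂ) • A)) *ᵥ x) = (((n : ℝ) * c * ∑ j, ‖x j‖ ^ 2 : ℝ) : ℂ) +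
      (s : ℂ) * ∑ j, ∑ k, star (x j) * A j k * x k := by
    rw [Matrix.add_mulVec, dotProduct_add, Matrix.smul_mulVec, Matrix.smul_mulVec,
      Matrix.one_mulVec, dotProduct_smul, dotProduct_smul]
    congr 1
    · simp only [dotProduct, Pi.star_apply, smul_eq_mul]
      push_cast
      congr 1
      apply Finset.sum_congr rfl
      intro j _
      rw [← Complex.ofReal_pow, ← Complex.normSq_eq_norm_sq, Complex.normSq_eq_conj_mul_self]
      rfl
    · simp only [dotProduct, Matrix.mulVec, Pi.star_apply, smul_eq_mul, Finset.mul_sum]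
      apply Finset.sum_congr rfl
      intro j _
      apply Finset.sum_congr rfl
      intro k _
      ring
  rw [h1]
  have h2 : ‖(s : ℂ) * ∑ j, ∑ k, star (x j) * A j k * x k‖ ≤ (n : ℝ) * c * ∑ j, ‖x j‖ ^ 2 := by
    rw [norm_mul, Complex.norm_real, Real.norm_eq_abs]
    have h3 : ‖∑ j, ∑ k, star (x j) * A j k * x k‖ ≤ (n : ℝ) * c * ∑ j, ‖x j‖ ^ 2 := by
      calc ‖∑ j, ∑ k, star (x j) * A j k * x k‖ ≤ ∑ j, ∑ k, ‖x j‖ * c * ‖x k‖ := by
            refine (norm_sum_le _ _).trans (Finset.sum_le_sum fun j _ => ?_)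
            refine (norm_sum_le _ _).trans (Finset.sum_le_sum fun k _ => ?_)
            rw [norm_mul, norm_mul, norm_star]
            have := hc j k
            gcongr
        _ = c * (∑ j, ‖x j‖) ^ 2 := by
            rw [sq, Finset.sum_mul_sum, Finset.mul_sum]
            apply Finset.sum_congr rfl
            intro j _
            rw [Finset.mul_sum]
            apply Finset.sum_congr rfl
            intro k _
            ring
        _ ≤ (n : ℝ) * c * ∑ j, ‖x j‖ ^ 2 := by
            rcases n.eq_zero_or_pos with h | h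
            · subst h
              simp
            · have hc0 : 0 ≤ c := (norm_nonneg _).trans (hc ⟨0, h⟩ ⟨0, h⟩)
              have h4 : (∑ j : Fin n, ‖x j‖) ^ 2 ≤ (n : ℝ) * ∑ j, ‖x j‖ ^ 2 := by
                have := sq_sum_le_card_mul_sum_sq (s := (Finset.univ : Finset (Fin n)))
                  (f := fun j => ‖x j‖)
                simpa using this
              calc c * (∑ j, ‖x j‖) ^ 2 ≤ c * ((n : ℝ) * ∑ j, ‖x j‖ ^ 2) :=
                    mul_le_mul_of_nonneg_left h4 hc0
                _ = (n : ℝ) * c * ∑ j, ‖x j‖ ^ 2 := by ring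
    calc |s| * ‖∑ j, ∑ k, star (x j) * A j k * x k‖
        ≤ 1 * ‖∑ j, ∑ k, star (x j) * A j k * x k‖ :=
          mul_le_mul_of_nonneg_right hs (norm_nonneg _)
      _ ≤ (n : ℝ) * c * ∑ j, ‖x j‖ ^ 2 := by rw [one_mul]; exact h3
  have h5 := Complex.abs_re_le_norm ((s : ℂ) * ∑ j, ∑ k, star (x j) * A j k * x k)
  have h6 := abs_le.mp (h5.trans h2)
  rw [Complex.add_re, Complex.ofReal_re]
  linarith [h6.1]

theorem mixD_bound (n : ℕ) (H : Fin n → Matrix (Fin n) (Fin n) ℂ) (i : Fin n)
    (A : Matrix (Fin n) (Fin n) ℂ) (c : ℝ) (hH : ∀ j, j ≠ i → (H j).PosSemidef)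
    (hA : A.IsHermitian) (hc : ∀ j k, ‖A j k‖ ≤ c) :
    ‖mixD (Function.update H i A)‖ ≤ n * c * (mixD (Function.update H i 1)).re := by
  have key : ∀ s : ℝ, |s| ≤ 1 → 0 ≤ (((n : ℝ) * c : ℝ) : ℂ) * mixD (Function.update H i 1) +
      (s : ℂ) * mixD (Function.update H i A) := by
    intro s hs
    have h1 := posSemidef_aux n A c s hs hA hc
    have h2 := mixD_nonneg n (Function.update H i
      ((((n : ℝ) * c : ℝ) : ℂ) • (1 : Matrix (Fin n) (Fin n) ℂ) + (s : ℂ) • A)) (by
        intro j
        by_cases hj : j = i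
        · subst hj
          rw [Function.update_self]
          exact h1
        · rw [Function.update_of_ne hj]
          exact hH j hj)
    rw [mixD_add] at h2
    have h3 : mixD (Function.update H i ((((n : ℝ) * c : ℝ) : ℂ) • (1 : Matrix (Fin n) (Fin n) ℂ))) =
        (((n : ℝ) * c : ℝ) : ℂ) * mixD (Function.update H i 1) := by
      have h4 := mixD_add n H i 0 1 (((n : ℝ) * c : ℝ) : ℂ)
      have h5 := mixD_add n H i 0 0 1
      rw [zero_add] at h4
      simp only [smul_zero, add_zero, one_mul] at h5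
      have h6 : mixD (Function.update H i 0) = 0 := by
        have := h5
        linear_combination -this
      rw [h4, h6, zero_add]
    rw [h3] at h2
    exact h2
  have k1 := key 1 (by simp)
  have k2 := key (-1) (by simp)
  rw [Complex.nonneg_iff] at k1 k2
  obtain ⟨a1, a2⟩ := k1
  obtain ⟨b1, b2⟩ := k2
  simp only [Complex.add_re, Complex.add_im, Complex.mul_re, Complex.mul_im, Complex.ofReal_re,
    Complex.ofReal_im, zero_mul, sub_zero, add_zero, Complex.ofReal_neg, Complex.ofReal_one,
    Complex.neg_re, Complex.neg_im, Complex.one_re, Complex.one_im, one_mul, neg_zero] at a1 a2 b1 b2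
  have him : (mixD (Function.update H i A)).im = 0 := by linarith
  have hre : ‖mixD (Function.update H i A)‖ = |(mixD (Function.update H i A)).re| := by
    have : mixD (Function.update H i A) = (((mixD (Function.update H i A)).re : ℝ) : ℂ) := by
      apply Complex.ext <;> simp [him]
    rw [this, Complex.norm_real, Real.norm_eq_abs, Complex.ofReal_re]
  rw [hre, abs_le]
  constructor <;> linarith

theorem mixD_tele (n : ℕ) (A B : Matrix (Fin n) (Fin n) ℂ) :
    (n.factorial : ℂ) * (A.det - B.det) =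
    ∑ i : Fin n, mixD (Function.update (fun j => if j < i then A else B) i (A - B)) := by
  have h1 : ∀ i : Fin n, mixD (Function.update (fun j => if j < i then A else B) i (A - B)) =
      (fun k : ℕ => mixD (fun j : Fin n => if (j : ℕ) < k then A else B)) (i + 1) -
      (fun k : ℕ => mixD (fun j : Fin n => if (j : ℕ) < k then A else B)) i := by
    intro i
    have h2 := mixD_add n (fun j => if j < i then A else B) i A B (-1)
    have h3 : A + (-1 : ℂ) • B = A - B := by
      rw [neg_one_smul, sub_eq_add_neg]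
    rw [h3] at h2
    rw [h2]
    have h4 : Function.update (fun j => if j < i then A else B) i A =
        (fun j : Fin n => if (j : ℕ) < (i : ℕ) + 1 then A else B) := by
      funext j
      by_cases hj : j = i
      · subst hj
        simp
      · rw [Function.update_of_ne hj]
        have h5 : (j < i) ↔ ((j : ℕ) < (i : ℕ) + 1) := by
          rw [Fin.lt_def]
          have h6 : (j : ℕ) ≠ (i : ℕ) := fun h => hj (Fin.ext h)
          omega
        simp only [h5]
    have h7 : Function.update (fun j => if j < i then A else B) i B =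
        (fun j : Fin n => if (j : ℕ) < (i : ℕ) then A else B) := by
      funext j
      by_cases hj : j = i
      · subst hj
        simp
      · rw [Function.update_of_ne hj]
        simp only [Fin.lt_def]
    rw [h4, h7]
    ring
  rw [Finset.sum_congr rfl (fun i _ => h1 i)]
  rw [Fin.sum_univ_eq_sum_range
    (fun i => (fun k : ℕ => mixD (fun j : Fin n => if (j : ℕ) < k then A else B)) (i + 1) -
      (fun k : ℕ => mixD (fun j : Fin n => if (j : ℕ) < k then A else B)) i) n]
  rw [Finset.sum_range_sub (fun k : ℕ => mixD (fun j : Fin n => if (j : ℕ) < k then A else B))]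
  have h8 : (fun j : Fin n => if (j : ℕ) < n then A else B) = fun _ => A := by
    funext j
    simp [j.2]
  have h9 : (fun j : Fin n => if (j : ℕ) < 0 then A else B) = fun _ => B := by
    funext j
    simp
  simp only [h8, h9, mixD_const]
  ring

/-- ZM-1. -/
theorem z1 : Z1Stmt := by
  refine ⟨mixD_const, mixD_add, ?_, ?_, mixD_tele⟩
  · intro n H hH
    have := mixD_nonneg n H hH
    rw [Complex.nonneg_iff] at this
    exact ⟨this.1, this.2.symm⟩
  · intro n H i A c hH hA hc
    exact mixD_bound n H i A c hH hA hc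

end Pool.Agent.Helper85.ZM
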